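import Mathlib

set_option autoImplicit false

namespace Pool.Agent.Results.MP_93c8fe_an.Full

open Metric Finset
open scoped ENNReal InnerProductSpace

universe u v

/-- The real sequence space `ℓ₂`. -/
abbrev L2 : Type := lp (fun _ : ℕ => ℝ) 2

/-- Gelfand numbers `c_n(S, F)`. -/
noncomputable def gel {X : Type u} {Y : Type v} [NormedAddCommGroup X] [NormedSpace ℝ X]
    [NormedAddCommGroup Y] [NormedSpace ℝ Y] (S : X →L[ℝ] Y) (F : Set X) (n : ℕ) : ℝ≥0∞ :=
  ⨅ L : Fin n → StrongDual ℝ X, ⨆ (f ∈ F) (g ∈ F) (_ : ∀ k, L k f = L k g), ‖S f - S g‖ₑ / 2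

/-- Hilbert numbers `h_n(S, F)`. -/
noncomputable def hil {X : Type u} {Y : Type v} [NormedAddCommGroup X] [NormedSpace ℝ X]
    [NormedAddCommGroup Y] [NormedSpace ℝ Y] (S : X →L[ℝ] Y) (F : Set X) (n : ℕ) : ℝ≥0∞ :=
  ⨆ (B : Y →L[ℝ] L2) (_ : ‖B‖ ≤ 1) (A : L2 →L[ℝ] X) (x ∈ F)
    (_ : ∀ w ∈ closedBall (0 : L2) 1, A w + x ∈ F), gel (B ∘L S ∘L A) (closedBall 0 1) n

section aux

variable {N : ℕ}

noncomputable def comb {H : Type*} [NormedAddCommGroup H] [NormedSpace ℝ H] (z : Fin N → H) :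
    EuclideanSpace ℝ (Fin N) →L[ℝ] H :=
  ∑ i, (EuclideanSpace.proj i : EuclideanSpace ℝ (Fin N) →L[ℝ] ℝ).smulRight (z i)

lemma comb_apply {H : Type*} [NormedAddCommGroup H] [NormedSpace ℝ H] (z : Fin N → H)
    (a : EuclideanSpace ℝ (Fin N)) : comb z a = ∑ i, a i • z i := by
  simp [comb]

lemma norm_comb {H : Type*} [NormedAddCommGroup H] [InnerProductSpace ℝ H] (z : Fin N → H)
    (hz : Orthonormal ℝ z) (a : EuclideanSpace ℝ (Fin N)) : ‖comb z a‖ = ‖a‖ := by
  rw [← sq_eq_sq₀ (norm_nonneg _) (norm_nonneg _), ← real_inner_self_eq_norm_sq, comb_apply,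
    hz.inner_sum, EuclideanSpace.real_norm_sq_eq]
  simp [sq]

noncomputable def tup {Y : Type*} [NormedAddCommGroup Y] [NormedSpace ℝ Y]
    (φ : Fin N → StrongDual ℝ Y) : Y →L[ℝ] EuclideanSpace ℝ (Fin N) :=
  (EuclideanSpace.equiv (Fin N) ℝ).symm.toContinuousLinearMap ∘L ContinuousLinearMap.pi φ

lemma tup_apply {Y : Type*} [NormedAddCommGroup Y] [NormedSpace ℝ Y]
    (φ : Fin N → StrongDual ℝ Y) (y : Y) (i : Fin N) : tup φ y i = φ i y := rfl

noncomputable def dl (i : Fin N) : L2 := lp.single 2 (i : ℕ) (1 : ℝ)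

lemma dl_on : Orthonormal ℝ (dl (N := N)) := by
  rw [orthonormal_iff_ite]
  intro i j
  unfold dl
  rw [lp.inner_single_left]
  by_cases h : i = j
  · subst h; simp
  · have : (i : ℕ) ≠ j := fun e => h (Fin.ext e)
    simp [h, lp.single_apply, this]

noncomputable def coef : L2 →L[ℝ] EuclideanSpace ℝ (Fin N) := tup fun i => innerSL ℝ (dl i)

lemma coef_le (w : L2) : ‖coef (N := N) w‖ ≤ ‖w‖ := by
  rw [← sq_le_sq₀ (norm_nonneg _) (norm_nonneg _), EuclideanSpace.norm_sq_eq]
  exact (dl_on (N := N)).sum_inner_products_le w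

lemma coef_comb (a : EuclideanSpace ℝ (Fin N)) : coef (comb dl a) = a := by
  ext i
  show inner ℝ (dl i) (comb dl a) = a i
  rw [comb_apply, dl_on.inner_right_fintype]

end aux

variable {X : Type u} {Y : Type v} [NormedAddCommGroup X] [InnerProductSpace ℝ X]
  [CompleteSpace X] [NormedAddCommGroup Y] [NormedSpace ℝ Y]

lemma greedy (S : X →L[ℝ] Y) (n : ℕ) (r : ℝ) (hr : 0 < r)
    (h : ENNReal.ofReal r < gel S (closedBall 0 1) n) (k : ℕ) (hk : k ≤ n + 1) :
    ∃ (e : ℕ → X) (φ : ℕ → StrongDual ℝ Y), (∀ i < k, ‖e i‖ = 1) ∧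
      (∀ i < k, ∀ j < i, inner ℝ (e j) (e i) = 0) ∧ (∀ i < k, ‖φ i‖ ≤ 1) ∧
      (∀ i < k, r ≤ φ i (S (e i))) ∧
      ∀ i < k, ∀ x, (∀ j ≤ i, inner ℝ (e j) x = 0) → φ i (S x) = 0 := by
  induction k with
  | zero => exact ⟨0, 0, by simp, by simp, by simp, by simp, by simp⟩
  | succ k ih =>
    obtain ⟨e, φ, h1, h2, h3, h4, h5⟩ := ih (by omega)
    have h6 := lt_of_lt_of_le h
      (iInf_le _ (fun j : Fin n => if (j : ℕ) < k then innerSL ℝ (e j) else 0))
    simp only [lt_iSup_iff] at h6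
    obtain ⟨f, hf, g, hg, hL, hS⟩ := h6
    rw [mem_closedBall_zero_iff] at hf hg
    obtain ⟨x, hx, xo, hSx⟩ : ∃ x : X, ‖x‖ ≤ 1 ∧ (∀ j < k, inner ℝ (e j) x = 0) ∧ r < ‖S x‖ := by
      refine ⟨(1 / 2 : ℝ) • (f - g), ?_, ?_, ?_⟩
      · rw [norm_smul, Real.norm_of_nonneg (by norm_num)]
        linarith [norm_sub_le f g]
      · intro j hj
        have := hL ⟨j, by omega⟩
        simp only [hj, if_true, innerSL_apply_apply] at this
        rw [inner_smul_right, inner_sub_right, this]; simp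
      · rw [map_smul, map_sub, norm_smul, Real.norm_of_nonneg (by norm_num)]
        rw [← ofReal_norm, ← ENNReal.ofReal_ofNat 2,
          ← ENNReal.ofReal_div_of_pos (by norm_num), ENNReal.ofReal_lt_ofReal_iff_of_nonneg hr.le]
          at hS
        linarith
    obtain ⟨ψ, hψ, hψx⟩ := exists_dual_vector'' ℝ (S x)
    have hψx : ψ (S x) = ‖S x‖ := by simpa using hψx
    obtain ⟨v, hv⟩ : ∃ v : X, ∀ y, inner ℝ v y = ψ (S y) :=
      ⟨(InnerProductSpace.toDual ℝ X).symm (ψ ∘L S), fun y => by simp⟩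
    obtain ⟨w, hw⟩ : ∃ w : X, w = v - ∑ j ∈ range k, inner ℝ (e j) v • e j := ⟨_, rfl⟩
    have wy : ∀ y, (∀ j < k, inner ℝ (e j) y = 0) → inner ℝ w y = ψ (S y) := by
      intro y hy
      rw [hw, inner_sub_left, sum_inner, hv, sum_eq_zero, sub_zero]
      intro j hj
      rw [inner_smul_left, hy j (mem_range.1 hj), mul_zero]
    have ew : ∀ j < k, inner ℝ (e j) w = 0 := by
      intro j hj
      rw [hw, inner_sub_right, inner_sum, sum_eq_single j]
      · rw [inner_smul_right, real_inner_self_eq_norm_sq, h1 j hj]; simp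
      · intro i hi hij
        rw [inner_smul_right]
        rcases lt_or_gt_of_ne hij with c | c
        · rw [real_inner_comm (e i) (e j), h2 j hj i c, mul_zero]
        · rw [h2 i (mem_range.1 hi) j c, mul_zero]
      · intro c; exact absurd (mem_range.2 hj) c
    have wr : r ≤ ‖w‖ := by
      have a := real_inner_le_norm w x
      rw [wy x xo, hψx] at a
      nlinarith [norm_nonneg w]
    have w0 : 0 < ‖w‖ := by linarith
    have up : ∀ i < k, Function.update e k (‖w‖⁻¹ • w) i = e i := fun i hi =>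
      Function.update_of_ne (by omega) _ _
    have up' : ∀ i < k, Function.update φ k ψ i = φ i := fun i hi =>
      Function.update_of_ne (by omega) _ _
    refine ⟨Function.update e k (‖w‖⁻¹ • w), Function.update φ k ψ, ?_, ?_, ?_, ?_, ?_⟩
    · intro i hi
      rcases Nat.lt_succ_iff_lt_or_eq.1 hi with c | rfl
      · rw [up i c, h1 i c]
      · rw [Function.update_self, norm_smul, norm_inv, norm_norm, inv_mul_cancel₀ w0.ne']
    · intro i hi j hj
      rcases Nat.lt_succ_iff_lt_or_eq.1 hi with c | rfl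
      · rw [up i c, up j (by omega), h2 i c j hj]
      · rw [Function.update_self, up j hj, inner_smul_right, ew j hj, mul_zero]
    · intro i hi
      rcases Nat.lt_succ_iff_lt_or_eq.1 hi with c | rfl
      · rw [up' i c]; exact h3 i c
      · rw [Function.update_self]; exact hψ
    · intro i hi
      rcases Nat.lt_succ_iff_lt_or_eq.1 hi with c | rfl
      · rw [up' i c, up i c]; exact h4 i c
      · rw [Function.update_self, Function.update_self, ← wy, inner_smul_right,
          real_inner_self_eq_norm_sq, sq, ← mul_assoc, inv_mul_cancel₀ w0.ne', one_mul]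
        · exact wr
        · intro j hj; rw [inner_smul_right, ew j hj, mul_zero]
    · intro i hi y hy
      rcases Nat.lt_succ_iff_lt_or_eq.1 hi with c | rfl
      · rw [up' i c]
        exact h5 i c y fun j hj => by rw [← up j (by omega)]; exact hy j hj
      · rw [Function.update_self, ← wy y fun j hj => by rw [← up j hj]; exact hy j hj.le]
        have := hy i le_rfl
        rw [Function.update_self, real_inner_smul_left] at this
        exact (mul_eq_zero.1 this).resolve_left (inv_ne_zero w0.ne')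

omit [CompleteSpace X] in
lemma hil_ge {N : ℕ} (hN : 0 < N) (S : X →L[ℝ] Y) (e : Fin N → X) (he : Orthonormal ℝ e)
    (φ : Fin N → StrongDual ℝ Y) (hφ : ∀ i, ‖φ i‖ ≤ 1) (k : ℕ) (s : ℝ)
    (b : Fin (k + 1) → EuclideanSpace ℝ (Fin N)) (hb : Orthonormal ℝ b)
    (hs : ∀ t, s * ‖t‖ ≤ ‖tup φ (S (comb e (comb b t)))‖) :
    ENNReal.ofReal (s / √N) ≤ hil S (closedBall 0 1) k := by
  have hN' : (0 : ℝ) < √N := Real.sqrt_pos.2 (by exact_mod_cast hN)
  have nB : ‖(√N)⁻¹ • (comb dl ∘L tup φ : Y →L[ℝ] L2)‖ ≤ 1 := by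
    apply ContinuousLinearMap.opNorm_le_bound _ zero_le_one
    intro y
    have h1 : ‖tup φ y‖ ≤ √N * ‖y‖ := by
      rw [← sq_le_sq₀ (norm_nonneg _) (by positivity), EuclideanSpace.norm_sq_eq, mul_pow,
        Real.sq_sqrt (by positivity)]
      calc ∑ i, ‖tup φ y i‖ ^ 2 ≤ ∑ _i : Fin N, ‖y‖ ^ 2 := by
            refine sum_le_sum fun i _ => ?_
            rw [tup_apply]
            gcongr
            exact ((φ i).le_opNorm y).trans (by nlinarith [hφ i, norm_nonneg y])
        _ = N * ‖y‖ ^ 2 := by simp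
    show ‖(√N)⁻¹ • comb dl (tup φ y)‖ ≤ _
    rw [norm_smul, norm_comb _ dl_on, norm_inv, Real.norm_of_nonneg hN'.le, one_mul,
      inv_mul_le_iff₀ hN']
    exact h1
  unfold hil
  refine le_iSup_of_le _ (le_iSup_of_le nB (le_iSup_of_le (comb e ∘L coef)
    (le_iSup_of_le 0 (le_iSup_of_le (by simp) (le_iSup_of_le ?_ ?_)))))
  · intro w hw
    rw [mem_closedBall_zero_iff] at hw ⊢
    show ‖comb e (coef w) + 0‖ ≤ 1
    rw [add_zero, norm_comb _ he]
    exact (coef_le w).trans hw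
  · refine le_iInf fun L => ?_
    obtain ⟨t, ht, t0⟩ : ∃ t : EuclideanSpace ℝ (Fin (k + 1)), tup L (comb dl (comb b t)) = 0 ∧
        t ≠ 0 := by
      have := LinearMap.ker_ne_bot_of_finrank_lt
        (f := (tup L ∘L comb dl ∘L comb b).toLinearMap) (by simp)
      obtain ⟨t, h1, h2⟩ := Submodule.exists_mem_ne_zero_of_ne_bot this
      exact ⟨t, h1, h2⟩
    have tn : 0 < ‖t‖ := norm_pos_iff.2 t0
    obtain ⟨t', t1, ht'⟩ : ∃ t' : EuclideanSpace ℝ (Fin (k + 1)), ‖t'‖ = 1 ∧
        tup L (comb dl (comb b t')) = 0 :=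
      ⟨‖t‖⁻¹ • t, by rw [norm_smul, norm_inv, norm_norm, inv_mul_cancel₀ tn.ne'],
        by simp only [map_smul, ht, smul_zero]⟩
    have nf : ‖comb dl (comb b t')‖ = 1 := by rw [norm_comb _ dl_on, norm_comb _ hb, t1]
    refine le_iSup_of_le (comb dl (comb b t')) (le_iSup_of_le (by simp [nf])
      (le_iSup_of_le (-comb dl (comb b t')) (le_iSup_of_le (by simp [nf])
      (le_iSup_of_le ?_ ?_))))
    · intro j
      have : L j (comb dl (comb b t')) = 0 := by rw [← tup_apply, ht']; rfl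
      rw [map_neg, this, neg_zero]
    · have hh : ∀ z : L2, ‖z‖ₑ / 2 = ENNReal.ofReal (‖z‖ / 2) := fun z => by
        rw [ENNReal.ofReal_div_of_pos (by norm_num), ofReal_norm, ENNReal.ofReal_ofNat]
      rw [hh]
      apply ENNReal.ofReal_le_ofReal
      rw [map_neg, sub_neg_eq_add, ← two_smul ℝ, norm_smul, Real.norm_of_nonneg (by norm_num),
        mul_div_cancel_left₀ _ (by norm_num)]
      show _ ≤ ‖(√N)⁻¹ • comb dl (tup φ (S (comb e (coef (comb dl (comb b t'))))))‖
      rw [coef_comb, norm_smul, norm_comb _ dl_on, norm_inv, Real.norm_of_nonneg hN'.le,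
        ← div_eq_inv_mul]
      have := hs t'
      rw [t1, mul_one] at this
      gcongr

lemma main (S : X →L[ℝ] Y) (n : ℕ) (r : ℝ) (hr : 0 < r)
    (h : ENNReal.ofReal r < gel S (closedBall 0 1) n) :
    ENNReal.ofReal (r / √(n + 1 : ℕ)) ^ (n + 1) ≤
      ∏ k ∈ range (n + 1), hil S (closedBall 0 1) k := by
  obtain ⟨e', φ', h1, h2, h3, h4, h5⟩ := greedy S n r hr h (n + 1) le_rfl
  let e : Fin (n + 1) → X := fun i => e' i
  let φ : Fin (n + 1) → StrongDual ℝ Y := fun i => φ' i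
  have ho : ∀ i j : Fin (n + 1), i < j → inner ℝ (e i) (e j) = 0 := fun i j c => h2 j j.2 i c
  have he : Orthonormal ℝ e := by
    refine ⟨fun i => h1 i i.2, fun i j hij => ?_⟩
    rcases lt_or_gt_of_ne hij with c | c
    · exact ho i j c
    · show inner ℝ (e i) (e j) = 0
      rw [real_inner_comm]; exact ho j i c
  let T : EuclideanSpace ℝ (Fin (n + 1)) →ₗ[ℝ] EuclideanSpace ℝ (Fin (n + 1)) :=
    (tup φ ∘L S ∘L comb e).toLinearMap
  have Tap : ∀ a, T a = tup φ (S (comb e a)) := fun a => rfl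
  have detT : r ^ (n + 1) ≤ LinearMap.det T := by
    let B := (EuclideanSpace.basisFun (Fin (n + 1)) ℝ).toBasis
    have hM : ∀ i j, LinearMap.toMatrix B B T i j = φ i (S (e j)) := by
      intro i j
      rw [LinearMap.toMatrix_apply]
      simp [B, Tap, tup_apply, comb_apply]
    rw [← LinearMap.det_toMatrix B, Matrix.det_of_isLowerTriangular]
    · calc r ^ (n + 1) = ∏ _i : Fin (n + 1), r := by simp
        _ ≤ _ := prod_le_prod (fun _ _ => hr.le) fun i _ => by rw [hM]; exact h4 i i.2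
    · intro i j hij
      rw [hM]
      have hij' : i < j := hij
      exact h5 i i.2 _ fun m hm => h2 j j.2 m (lt_of_le_of_lt hm hij')
  have hQ : (LinearMap.adjoint T * T).IsSymmetric := LinearMap.isSymmetric_adjoint_mul_self T
  have hn : Module.finrank ℝ (EuclideanSpace ℝ (Fin (n + 1))) = n + 1 := by simp
  let lam := hQ.eigenvalues hn
  let b := hQ.eigenvectorBasis hn
  have Qb : ∀ i, (LinearMap.adjoint T * T) (b i) = lam i • b i := fun i =>
    hQ.apply_eigenvectorBasis hn i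
  have nT : ∀ a, ‖T a‖ ^ 2 = inner ℝ ((LinearMap.adjoint T * T) a) a := fun a => by
    rw [Module.End.mul_apply, LinearMap.adjoint_inner_left, real_inner_self_eq_norm_sq]
  have lam0 : ∀ i, 0 ≤ lam i := fun i => by
    have := nT (b i)
    rw [Qb, real_inner_smul_left, real_inner_self_eq_norm_sq, b.orthonormal.1 i] at this
    nlinarith [sq_nonneg ‖T (b i)‖]
  have dQ : ∏ i, lam i = LinearMap.det T ^ 2 := by
    have := hQ.det_eq_prod_eigenvalues hn
    have da : LinearMap.det (LinearMap.adjoint T) = LinearMap.det T := by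
      rw [← LinearMap.det_toMatrix (EuclideanSpace.basisFun (Fin (n + 1)) ℝ).toBasis,
        LinearMap.toMatrix_adjoint, Matrix.det_conjTranspose, LinearMap.det_toMatrix, star_trivial]
    rw [map_mul, da] at this
    simpa [sq] using this.symm
  have hk : ∀ k : Fin (n + 1), ENNReal.ofReal (√(lam k) / √(n + 1 : ℕ)) ≤
      hil S (closedBall 0 1) k := by
    intro k
    have hle : (k : ℕ) + 1 ≤ n + 1 := k.2
    have hb : Orthonormal ℝ (fun m : Fin (k + 1) => b (Fin.castLE hle m)) :=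
      b.orthonormal.comp _ (Fin.castLE_injective hle)
    refine hil_ge (Nat.succ_pos n) S e he φ (fun i => h3 i i.2) k _ _ hb fun t => ?_
    rw [← Tap, ← sq_le_sq₀ (by positivity) (norm_nonneg _), nT, mul_pow, Real.sq_sqrt (lam0 k),
      comb_apply, map_sum]
    simp only [map_smul, Qb, smul_smul]
    rw [hb.inner_sum, EuclideanSpace.real_norm_sq_eq, mul_sum]
    refine sum_le_sum fun m _ => ?_
    have : lam k ≤ lam (Fin.castLE hle m) :=
      hQ.eigenvalues_antitone hn (show (m : ℕ) ≤ k from Nat.lt_succ_iff.1 m.2)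
    simp only [conj_trivial]
    nlinarith [sq_nonneg (t m)]
  rw [← Fin.prod_univ_eq_prod_range (fun k => hil S (closedBall 0 1) k)]
  refine le_trans ?_ (prod_le_prod' fun k _ => hk k)
  rw [← ENNReal.ofReal_pow (by positivity),
    ← ENNReal.ofReal_prod_of_nonneg (fun _ _ => by positivity)]
  apply ENNReal.ofReal_le_ofReal
  rw [prod_div_distrib, div_pow, prod_const, card_univ, Fintype.card_fin,
    ← Real.sqrt_prod _ (fun i _ => lam0 i), dQ,
    Real.sqrt_sq (le_trans (by positivity) detT)]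
  gcongr

theorem result (X : Type u) (Y : Type v) [NormedAddCommGroup X] [InnerProductSpace ℝ X]
    [CompleteSpace X] [NormedAddCommGroup Y] [NormedSpace ℝ Y] [CompleteSpace Y]
    (S : X →L[ℝ] Y) (n : ℕ) (hn : 1 ≤ n) :
    gel S (closedBall 0 1) (n - 1) ≤
      (n : ℝ≥0∞) ^ (1 / 2 : ℝ) * (∏ k ∈ range n, hil S (closedBall 0 1) k) ^ (1 / n : ℝ) := by
  obtain ⟨m, rfl⟩ : ∃ m, n = m + 1 := ⟨n - 1, by omega⟩
  rw [Nat.add_sub_cancel]
  refine le_of_forall_lt_imp_le_of_dense fun c hc => ?_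
  rcases eq_or_ne c 0 with rfl | c0
  · exact zero_le
  have ct : c ≠ ⊤ := ne_top_of_lt hc
  have hr : 0 < c.toReal := ENNReal.toReal_pos c0 ct
  have h := main S m c.toReal hr (by rwa [ENNReal.ofReal_toReal ct])
  have hp : (0 : ℝ) < ((m + 1 : ℕ) : ℝ) := by positivity
  have h2 := ENNReal.rpow_le_rpow h (z := 1 / ((m + 1 : ℕ) : ℝ)) (by positivity)
  rw [← ENNReal.rpow_natCast, ← ENNReal.rpow_mul, mul_one_div_cancel hp.ne', ENNReal.rpow_one]
    at h2
  refine le_trans ?_ (mul_le_mul_right h2 _)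
  rw [← ENNReal.ofReal_natCast, ENNReal.ofReal_rpow_of_pos hp, ← Real.sqrt_eq_rpow,
    ← ENNReal.ofReal_mul (Real.sqrt_nonneg _), mul_div_cancel₀ _ (Real.sqrt_pos.2 hp).ne',
    ENNReal.ofReal_toReal ct]

end Pool.Agent.Results.MP_93c8fe_an.Full
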